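import Pool.Agent.Helper43_HAM.Stmts

/-!
# Squad HAM, module DEF: all states of a plane map are plane
-/

namespace Pool.Agent.HAM.H65

open Equiv

theorem sc_rel {D : Type} (π : Perm D) (r : Setoid D) (h : ∀ x, r.r x (π x)) {x y : D}
    (hxy : π.SameCycle x y) : r.r x y := by
  obtain ⟨i, rfl⟩ := hxy
  induction i using Int.induction_on with
  | zero => exact r.refl x
  | succ i ih =>
    have h1 : (π ^ ((i : ℤ) + 1)) x = π ((π ^ (i : ℤ)) x) := by
      rw [add_comm, zpow_add, zpow_one, Perm.mul_apply]
    rw [h1]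
    exact r.trans ih (h _)
  | pred i ih =>
    have h1 : π ((π ^ (-(i : ℤ) - 1)) x) = (π ^ (-(i : ℤ))) x := by
      rw [← Perm.mul_apply]
      congr 1
      rw [← zpow_one_add]
      congr 1
      ring
    have h2 := h ((π ^ (-(i : ℤ) - 1)) x)
    rw [h1] at h2
    exact r.trans ih (r.symm h2)

section

variable {E : Type} [DecidableEq E]

theorem flip_empty_apply (d : Dart E) : flip (∅ : Finset E) d = d := by
  simp [flip]

theorem rho_empty (σ : Perm (Dart E)) : rho σ ∅ = σ := by
  ext d : 1
  rw [rho, Perm.mul_apply, flip_empty_apply]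

theorem conn_empty (σ : Perm (Dart E)) : conn σ ∅ = Perm.SameCycle.setoid σ := by
  ext x y
  constructor
  · intro h
    change Relation.EqvGen _ x y at h
    change σ.SameCycle x y
    induction h with
    | rel a b hab =>
      rcases hab with h | h
      · rw [h]
        exact ⟨1, by simp⟩
      · rw [flip_empty_apply] at h
        rw [h]
    | refl a => exact Perm.SameCycle.refl _ _
    | symm a b _ ih => exact ih.symm
    | trans a b c _ _ ih1 ih2 => exact ih1.trans ih2
  · intro h
    change σ.SameCycle x y at h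
    exact sc_rel σ (conn σ ∅) (fun a => Relation.EqvGen.rel _ _ (Or.inl rfl)) h

theorem comp_empty (σ : Perm (Dart E)) : comp σ ∅ = cyc σ := by
  unfold comp cyc
  rw [conn_empty]

theorem conn_rho (σ : Perm (Dart E)) (S : Finset E) (x : Dart E) :
    (conn σ S).r x (rho σ S x) := by
  have h1 : (conn σ S).r x (σ x) := Relation.EqvGen.rel _ _ (Or.inl rfl)
  have h2 : (conn σ S).r (σ x) (flip S (σ x)) := Relation.EqvGen.rel _ _ (Or.inr rfl)
  have h3 := (conn σ S).trans h1 h2
  rw [rho, Perm.mul_apply]
  exact h3

theorem rho_insert (σ : Perm (Dart E)) (S : Finset E) (e : E) (he : e ∉ S) :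
    rho σ (insert e S) = swap (e, false) (e, true) * rho σ S := by
  unfold rho
  rw [← mul_assoc]
  congr 1
  ext d : 1
  obtain ⟨f, b⟩ := d
  rw [Perm.mul_apply]
  by_cases hf : f = e
  · subst hf
    have h1 : flip S (f, b) = (f, b) := by simp [flip, he]
    have h2 : flip (insert f S) (f, b) = (f, !b) := by simp [flip]
    rw [h1, h2]
    cases b
    · simp
    · simp
  · have h1 : (flip S (f, b)).1 = f := rfl
    have h2 : flip (insert e S) (f, b) = flip S (f, b) := by
      simp [flip, hf]
    rw [h2, swap_apply_of_ne_of_ne]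
    · intro h
      apply hf
      rw [← h1, h]
    · intro h
      apply hf
      rw [← h1, h]

end

/-- DEF -/
theorem def_thm (hCyc : CycStmt) (hCom : ComStmt) : DefStmt := by
  intro E _ _ σ hpl
  obtain ⟨hc, hv⟩ := hpl
  -- the defect
  let d : Finset E → ℤ := fun S =>
    2 * (comp σ S : ℤ) + (S.card : ℤ) - (cyc σ : ℤ) - (cyc (rho σ S) : ℤ)
  have hd : ∀ S, d S = 2 * (comp σ S : ℤ) + (S.card : ℤ) - (cyc σ : ℤ) - (cyc (rho σ S) : ℤ) :=
    fun S => rfl
  have hstep : ∀ (S : Finset E) (e : E), e ∉ S → d S ≤ d (insert e S) := by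
    intro S e he
    have hne : ((e, false) : Dart E) ≠ (e, true) := by
      intro h
      exact Bool.false_ne_true (congrArg Prod.snd h)
    obtain ⟨c1, c2⟩ := hCyc (Dart E) (rho σ S) (e, false) (e, true) hne
    obtain ⟨m1, m2⟩ := hCom E σ S e he
    rw [← rho_insert σ S e he] at c1 c2
    have hcard : (insert e S).card = S.card + 1 := Finset.card_insert_of_notMem he
    rw [hd, hd, hcard]
    push_cast
    by_cases hs : (rho σ S).SameCycle (e, false) (e, true)
    · have k1 := c1 hs
      have k2 := m1 (sc_rel (rho σ S) (conn σ S) (conn_rho σ S) hs)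
      rw [k1, k2]
      push_cast
      linarith
    · have k1 := c2 hs
      by_cases hr : (conn σ S).r (e, false) (e, true)
      · have k2 := m1 hr
        have k3 : (cyc (rho σ (insert e S)) : ℤ) + 1 = (cyc (rho σ S) : ℤ) := by exact_mod_cast k1
        rw [k2]
        linarith
      · have k2 := m2 hr
        have k3 : (cyc (rho σ (insert e S)) : ℤ) + 1 = (cyc (rho σ S) : ℤ) := by exact_mod_cast k1
        have k4 : (comp σ (insert e S) : ℤ) + 1 = (comp σ S : ℤ) := by exact_mod_cast k2
        linarith
  have hmono : ∀ (T S : Finset E), d S ≤ d (S ∪ T) := by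
    intro T
    induction T using Finset.induction_on with
    | empty =>
      intro S
      rw [Finset.union_empty]
    | insert e T _ ih =>
      intro S
      rw [Finset.union_insert]
      by_cases h : e ∈ S ∪ T
      · rw [Finset.insert_eq_of_mem h]
        exact ih S
      · exact (ih S).trans (hstep _ _ h)
  have h0 : d ∅ = 0 := by
    rw [hd, rho_empty, comp_empty]
    simp
    ring
  have h1 : d Finset.univ = 0 := by
    rw [hd, hc, Finset.card_univ]
    have : (cyc σ : ℤ) + (cyc (rho σ Finset.univ) : ℤ) = (Fintype.card E : ℤ) + 2 := by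
      exact_mod_cast hv
    push_cast
    linarith
  intro S
  have a1 : d ∅ ≤ d S := by
    have := hmono S ∅
    rwa [Finset.empty_union] at this
  have a2 : d S ≤ d Finset.univ := by
    have := hmono Finset.univ S
    rwa [Finset.union_eq_right.mpr (Finset.subset_univ S)] at this
  have a3 : d S = 0 := le_antisymm (a2.trans h1.le) (h0.ge.trans a1)
  rw [hd] at a3
  have a4 : (cyc (rho σ S) : ℤ) + (cyc σ : ℤ) = (S.card : ℤ) + 2 * (comp σ S : ℤ) := by linarith
  exact_mod_cast a4

end Pool.Agent.HAM.H65
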